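import Mathlib
import Pool.Agent.R695.CC.Fin

/-!
# MP_c99e7e_pr: a cubic cover time forces a cubic cover cost (positive answer to Q1)

For every `M > 0` there is `c > 0` such that for every finite connected graph `G` on `n + 1`
vertices and every vertex `r`: if `CT_r(G) > M n ^ 3` then `cc_r(G) > c n ^ 3`.

Idea of the proof.  If some expected hitting time from `r` is at least `δ n ^ 3`, then so are
(up to a factor) those of linearly many vertices, because expected hitting times of neighbours
differ by at most `2 m ≤ 2 n ^ 2`; hence the cover cost is at least `δ ^ 2 n ^ 3 / 8`.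
If all expected hitting times from `r` are at most `δ n ^ 3`, then by the random target lemma
there is a vertex `c` which is quickly reached from everywhere, and all expected hitting times
are, up to errors of size `O(δ n ^ 3)`, those of a half line with end `c`.  On such a structure
a point is missed on the way from `r` to `c` only near a point of decrease of the walk on the
half line, and the probability that there is one is small (this is Peres' argument for the
theorem of Dvoretzky, Erdős and Kakutani).  This bounds the cover time.
-/

set_option autoImplicit false

open MeasureTheory ProbabilityTheory Finset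
open scoped ENNReal

namespace Pool.Agent.Results.MP_c99e7e_pr.CubicCoverCost

section Definitions

variable {V : Type} [Fintype V]

open Classical in
/-- One step of simple random walk: a uniformly random neighbour of `x` (and `x` itself in the
degenerate case of an isolated vertex). -/
noncomputable def stepLaw (G : SimpleGraph V) (x : V) : PMF V :=
  if hne : (Finset.univ.filter fun y => G.Adj x y).Nonempty then
    PMF.uniformOfFinset (Finset.univ.filter fun y => G.Adj x y) hne
  else PMF.pure x

variable [MeasurableSpace V] [DiscreteMeasurableSpace V]

/-- Transition kernel: given the path up to time `n`, the next position has law `stepLaw` of the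
current position. -/
noncomputable def stepKernel (G : SimpleGraph V) (n : ℕ) : Kernel (Finset.Iic n → V) V :=
  (Kernel.ofFunOfCountable (fun x => (stepLaw G x).toMeasure)).comap
    (fun path => path ⟨n, Finset.mem_Iic.2 le_rfl⟩) (measurable_pi_apply _)

instance (G : SimpleGraph V) (n : ℕ) : IsMarkovKernel (stepKernel G n) := by
  constructor
  intro a
  rw [stepKernel, Kernel.comap_apply]
  change IsProbabilityMeasure (stepLaw G _).toMeasure
  infer_instance

/-- The law (on the space of infinite paths) of simple random walk started at `r`. -/
noncomputable def walkLaw (G : SimpleGraph V) (r : V) : Measure (ℕ → V) :=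
  Kernel.trajMeasure (X := fun _ => V) (Measure.dirac r) (stepKernel G)


/-- The number of steps until every vertex has been visited (`∞` if this never happens). -/
noncomputable def coverTime (ω : ℕ → V) : ℝ≥0∞ :=
  ⨅ (t : ℕ) (_ : ∀ v : V, ∃ s ≤ t, ω s = v), (t : ℝ≥0∞)

/-- The cover time `CT_r(G)`: the expected number of steps until every vertex has been
visited. -/
noncomputable def CT (G : SimpleGraph V) (r : V) : ℝ≥0∞ :=
  ∫⁻ ω, coverTime ω ∂(walkLaw G r)

open Classical in
/-- The number of vertices other than the starting point visited at the times `0, …, t`. -/
noncomputable def seen (ω : ℕ → V) (t : ℕ) : ℕ :=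
  (Finset.univ.filter fun v : V => v ≠ ω 0 ∧ ∃ s ≤ t, ω s = v).card

/-- The cost of the step from time `t` to time `t + 1`: it is `1 - k / n` if exactly `k` vertices
other than the starting point have been visited (so it is `0` once everything has been visited);
`n + 1` is the number of vertices. -/
noncomputable def stepCost (n : ℕ) (ω : ℕ → V) (t : ℕ) : ℝ≥0∞ :=
  ENNReal.ofReal (1 - (seen ω t : ℝ) / n)

/-- The cover cost `cc_r(G)`: the expected total cost of all steps. -/
noncomputable def cc (G : SimpleGraph V) (r : V) : ℝ≥0∞ :=
  ∫⁻ ω, ∑' t, stepCost (Fintype.card V - 1) ω t ∂(walkLaw G r)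

end Definitions

/-- **Positive answer to Q1.** For every real `M > 0` there is `c > 0` such that for every finite
connected simple graph `G` on `n + 1` vertices and every vertex `r`, if `CT_r(G) > M n ^ 3` then
`cc_r(G) > c n ^ 3`. -/
theorem result : ∀ M : ℝ, 0 < M → ∃ c : ℝ, 0 < c ∧
    ∀ (V : Type) [Fintype V] [MeasurableSpace V] [DiscreteMeasurableSpace V]
      (G : SimpleGraph V) (n : ℕ), Fintype.card V = n + 1 → G.Connected → ∀ r : V,
      ENNReal.ofReal (M * (n : ℝ) ^ 3) < CT G r → ENNReal.ofReal (c * (n : ℝ) ^ 3) < cc G r := by
  intro M hM
  obtain ⟨c, hc, hmain⟩ := Pool.Agent.R695.CC.Q.main_ok M hM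
  refine ⟨c, hc, ?_⟩
  intro V _ _ _ G n hn hG r hCT
  rcases Nat.eq_zero_or_pos n with h0 | hpos
  · exfalso
    subst h0
    have hsub : Subsingleton V := Fintype.card_le_one_iff_subsingleton.mp (by omega)
    have hzero : CT G r = 0 := by
      unfold CT
      have : ∀ ω : ℕ → V, coverTime ω = 0 := by
        intro ω
        refine le_antisymm ?_ bot_le
        unfold coverTime
        refine iInf_le_of_le 0 (iInf_le_of_le (fun v => ⟨0, le_rfl, Subsingleton.elim _ _⟩) ?_)
        simp
      simp [this]
    rw [hzero] at hCT
    exact absurd hCT not_lt_bot
  · exact hmain V G n hn hpos hG r hCT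

end Pool.Agent.Results.MP_c99e7e_pr.CubicCoverCost
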